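import Pool.Agent.W932.RO.Defs2
import Pool.Agent.W723.RO.Lang

/-!
# Weighted satisfiability relative to a random oracle: the second language on good instances
-/

set_option autoImplicit false

namespace Pool.Agent.W45.RO

open Finset H568R2 Pool.Agent.H676 Pool.Agent.W911.AL Pool.Agent.W932.RO Pool.Agent.W723.RO
open Pool.Agent.NPC hiding lang
open Pool.Agent.H620R2.Gauge hiding par
open Pool.Agent.H591R3.PHG hiding lang

theorem main1 : StmLangS := by
  intro t n K μ s as x A hI hl
  obtain ⟨as', a, rfl⟩ : ∃ as' a, as = as' ++ [a] := by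
    have hne : as ≠ [] := by
      rintro rfl
      simp at hl
    exact ⟨as.dropLast, as.getLast hne, (List.dropLast_append_getLast hne).symm⟩
  have hb : x ∈ langS A ↔ ∃ z : List Bool, z.length = μ ∧
      ∀ z' : List Bool, z'.length = a + s →
        (as'.reverse.foldr up (bitv A (8 * n))) (x ++ z ++ z') = false := by
    unfold langS
    rw [Set.mem_ofPred_eq, hI.wl, hI.bl0, hI.szs]
    refine exists_congr fun z => and_congr_right fun _ => ?_
    rw [all_len (a + s) (fun z' => (as'.reverse.foldr up (bitv A (8 * n))) (x ++ z ++ z') = false),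
      List.reverse_append, List.reverse_singleton, List.singleton_append, addHead,
      List.foldr_cons]
    simp [up]
  rw [hb, ex_len μ (fun z => ∀ z' : List Bool, z'.length = a + s →
        (as'.reverse.foldr up (bitv A (8 * n))) (x ++ z ++ z') = false)]
  have ht : ∀ r : List Bool, tv (as' ++ [a]) (8 * n)
      (fun i => A (lf (as' ++ [a]) (8 * n) r i)) = true ↔
      ∀ i < 2 ^ a, (as'.reverse.foldr up (bitv A (8 * n))) (r ++ bitsOf a i) = false := by
    intro r
    have h1 : tv (as' ++ [a]) (8 * n) (fun i => A (lf (as' ++ [a]) (8 * n) r i)) =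
        ((as' ++ [a]).foldl (fun v a => up a v) (bitv A (8 * n))) r :=
      tr_leaves A (as' ++ [a]) (8 * n) (fun _ : Unit => r) ()
    rw [h1, List.foldl_append, List.foldr_reverse]
    simp only [List.foldl_cons, List.foldl_nil]
    unfold up
    simp
  constructor
  · rintro ⟨y, hy, h⟩
    refine ⟨⟨y, hy⟩, fun g => ?_⟩
    show tv (as' ++ [a]) (8 * n) (fun i => A (lf (as' ++ [a]) (8 * n)
      (x ++ bitsOf μ y ++ bitsOf s g.val) i)) = true
    rw [ht]
    intro i _
    have := h (bitsOf s g.val ++ bitsOf a i) (by
      rw [List.length_append, length_bitsOf, length_bitsOf]; omega)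
    rw [← List.append_assoc] at this
    exact this
  · rintro ⟨y, h⟩
    refine ⟨y.val, y.isLt, fun z' hz' => ?_⟩
    obtain ⟨g, hg, hge⟩ := exists_bitsOf (z'.take s)
    obtain ⟨i, hi, hie⟩ := exists_bitsOf (z'.drop s)
    have hls : (z'.take s).length = s := by rw [List.length_take]; omega
    have hla : (z'.drop s).length = a := by rw [List.length_drop]; omega
    rw [hls] at hg hge
    rw [hla] at hi hie
    have h2 : tv (as' ++ [a]) (8 * n) (fun i => A (lf (as' ++ [a]) (8 * n)
      (x ++ bitsOf μ y.val ++ bitsOf s g) i)) = true := h ⟨g, hg⟩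
    rw [ht] at h2
    have h3 := h2 i hi
    rw [hge, hie, List.append_assoc, List.take_append_drop] at h3
    exact h3

theorem sum_le (as : List ℕ) (b : ℕ) (h : ∀ a ∈ as, a ≤ b) : as.sum ≤ as.length * b := by
  have := List.sum_le_card_nsmul as b h
  simpa using this

theorem main2 : StmInstS := by
  intro t n K μ s as hl ha hs hμ hsz
  have hsum0 := sum_le as (64 * n) ha
  rw [hl] at hsum0
  obtain ⟨as', a, rfl⟩ : ∃ as' a, as = as' ++ [a] := by
    have hne : as ≠ [] := by
      rintro rfl
      simp at hl
    exact ⟨as.dropLast, as.getLast hne, (List.dropLast_append_getLast hne).symm⟩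
  have hl' : as'.length = t := by simpa using hl
  have hn : 1 ≤ n := by
    by_contra hn
    have : n = 0 := by omega
    subst this
    simp at hsz
  have hTn : n ≤ (t + 1) * n := Nat.le_mul_of_pos_left _ (by omega)
  have e65 : 65 * (t + 1) * n = 64 * ((t + 1) * n) + (t + 1) * n := by ring
  have e64 : (t + 1) * (64 * n) = 64 * ((t + 1) * n) := by ring
  rw [e64] at hsum0
  have hsum1 : (as' ++ [a]).sum = as'.sum + a := by simp
  set l : List ℕ := K :: (8 * n) :: μ :: (t + 1) :: (a + s) :: as'.reverse with hldef
  have hlen : l.length = t + 5 := by simp [hldef, hl']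
  have hsum : l.sum = K + 8 * n + μ + (t + 1) + s + (as' ++ [a]).sum := by
    simp only [hldef, List.sum_cons, List.sum_reverse, List.sum_append, List.sum_nil]
    ring
  set N : ℕ := 2 ^ (65 * (t + 1) * n - 1) with hN
  set x : List Bool := encL l (List.replicate (N - (2 * l.sum + l.length)) true) with hx
  have hxl : x.length = N := by
    rw [hx, length_encL, List.length_replicate, hsum, hlen]
    omega
  have hlg : lg x = 65 * (t + 1) * n := by
    unfold lg
    rw [hxl, hN, Nat.size_pow]
    omega
  have hnum : ∀ (i : ℕ) (hi : i < l.length), num i x = l[i] := fun i hi => num_encL l _ i hi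
  have hk : kap x = K := by
    unfold kap
    rw [hnum 0 (by omega)]
    rfl
  have h3 : num 3 x = t + 1 := by
    rw [hnum 3 (by omega)]
    rfl
  have hmap : ((List.range (num 3 x)).map fun i => num (i + 4) x) =
      addHead s (as' ++ [a]).reverse := by
    rw [h3, List.reverse_append, List.reverse_singleton, List.singleton_append, addHead]
    apply List.ext_getElem
    · simp [hl']
    · intro i hi hi'
      rw [List.getElem_map, List.getElem_range]
      have hi2 : i < t + 1 := by simpa using hi
      rw [hnum (i + 4) (by omega)]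
      simp only [hldef, List.getElem_cons_succ]
  refine ⟨x, ⟨hk, ?_, ?_, ?_⟩, hlg, hxl⟩
  · unfold wl
    rw [hnum 1 (by omega), hlg]
    show min (8 * n) (65 * (t + 1) * n) = 8 * n
    omega
  · rw [bl, hnum 2 (by omega), hk, hlg]
    show min μ (K * (65 * (t + 1) * n)) = μ
    exact min_eq_left hμ
  · unfold Pool.Agent.W932.RO.szs
    rw [hmap, if_pos]
    rw [List.reverse_append, List.reverse_singleton, List.singleton_append, addHead,
      List.sum_cons, List.sum_reverse, hlg]
    omega

end Pool.Agent.W45.RO
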